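import Mathlib
import Pool.Agent.W785.EN.Defs

/-!
# Similarities of curves and of solutions of the elastic flow
-/

set_option autoImplicit false

open Set Filter Topology
open scoped ContDiff

namespace Pool.Agent.Y357.EN

open Pool.Agent.W785.EN

/-- the curve `ζ (γ - P)` -/
noncomputable def rt (ζ P : ℂ) (γ : ℝ → ℂ) (x : ℝ) : ℂ := ζ * (γ x - P)

theorem derivWithin_rt (ζ P : ℂ) (γ : ℝ → ℂ) (s : Set ℝ) (x : ℝ) :
    derivWithin (rt ζ P γ) s x = ζ * derivWithin γ s x := by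
  show derivWithin (fun x => ζ * (γ x - P)) s x = _
  rw [derivWithin_const_mul_field, derivWithin_sub_const]

theorem norm_rt (ζ P : ℂ) (γ : ℝ → ℂ) (x : ℝ) :
    ‖derivWithin (rt ζ P γ) (Icc 0 1) x‖ = ‖ζ‖ * ‖derivWithin γ (Icc 0 1) x‖ := by
  rw [derivWithin_rt, norm_mul]

theorem dS_rt (ζ P : ℂ) (γ : ℝ → ℂ) {E : Type*} [NormedAddCommGroup E] [NormedSpace ℝ E]
    (f : ℝ → E) (x : ℝ) : dS (rt ζ P γ) f x = ‖ζ‖⁻¹ • dS γ f x := by
  unfold dS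
  rw [norm_rt, mul_inv, mul_smul]

theorem tau_rt (ζ P : ℂ) (γ : ℝ → ℂ) : tau (rt ζ P γ) = fun x => (‖ζ‖⁻¹ • ζ) * tau γ x := by
  funext x
  show dS (rt ζ P γ) (rt ζ P γ) x = (‖ζ‖⁻¹ • ζ) * dS γ γ x
  rw [dS_rt]
  unfold dS
  rw [derivWithin_rt, mul_smul_comm, smul_mul_assoc]
  rw [smul_comm]

theorem nu_rt (ζ P : ℂ) (γ : ℝ → ℂ) : nu (rt ζ P γ) = fun x => (‖ζ‖⁻¹ • ζ) * nu γ x := by
  funext x
  unfold nu
  rw [tau_rt]
  ring

theorem dot_mul (ζ : ℂ) (a b : ℂ) : dot (ζ * a) (ζ * b) = ‖ζ‖ ^ 2 * dot a b := by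
  have h : ‖ζ‖ ^ 2 = ζ.re ^ 2 + ζ.im ^ 2 := by
    have := Complex.sq_norm ζ
    rw [Complex.normSq_apply] at this
    nlinarith
  unfold dot
  simp only [Complex.mul_re, Complex.mul_im]
  rw [h]
  ring

theorem norm_unit {ζ : ℂ} (hζ : ζ ≠ 0) : ‖(‖ζ‖⁻¹ • ζ : ℂ)‖ = 1 := by
  rw [norm_smul, norm_inv, norm_norm, inv_mul_cancel₀ (norm_ne_zero_iff.2 hζ)]

theorem dot_unit {ζ : ℂ} (hζ : ζ ≠ 0) (a b : ℂ) :
    dot ((‖ζ‖⁻¹ • ζ) * a) ((‖ζ‖⁻¹ • ζ) * b) = dot a b := by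
  rw [dot_mul, norm_unit hζ, one_pow, one_mul]

theorem dot_smul (r : ℝ) (a b : ℂ) : dot (r • a) b = r * dot a b := by
  unfold dot
  rw [Complex.smul_re, Complex.smul_im, smul_eq_mul, smul_eq_mul]
  ring

theorem curv_rt {ζ : ℂ} (hζ : ζ ≠ 0) (P : ℂ) (γ : ℝ → ℂ) (x : ℝ) :
    curv (rt ζ P γ) x = ‖ζ‖⁻¹ * curv γ x := by
  unfold curv
  rw [nu_rt, dS_rt, tau_rt]
  have : dS γ (fun x => (‖ζ‖⁻¹ • ζ) * tau γ x) x = (‖ζ‖⁻¹ • ζ) * dS γ (tau γ) x := by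
    unfold dS
    rw [derivWithin_const_mul_field, mul_smul_comm]
  rw [this, dot_smul, dot_unit hζ]

theorem dcurv_rt {ζ : ℂ} (hζ : ζ ≠ 0) (P : ℂ) (γ : ℝ → ℂ) (x : ℝ) :
    dS (rt ζ P γ) (curv (rt ζ P γ)) x = ‖ζ‖⁻¹ ^ 2 * dS γ (curv γ) x := by
  rw [dS_rt]
  have e : curv (rt ζ P γ) = fun y => ‖ζ‖⁻¹ * curv γ y := by
    funext y
    exact curv_rt hζ P γ y
  rw [e]
  unfold dS
  rw [derivWithin_const_mul_field]
  simp only [smul_eq_mul]
  ring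

theorem ddcurv_rt {ζ : ℂ} (hζ : ζ ≠ 0) (P : ℂ) (γ : ℝ → ℂ) (x : ℝ) :
    dS (rt ζ P γ) (dS (rt ζ P γ) (curv (rt ζ P γ))) x =
      ‖ζ‖⁻¹ ^ 3 * dS γ (dS γ (curv γ)) x := by
  rw [dS_rt]
  have e : dS (rt ζ P γ) (curv (rt ζ P γ)) = fun y => ‖ζ‖⁻¹ ^ 2 * dS γ (curv γ) y := by
    funext y
    exact dcurv_rt hζ P γ y
  rw [e]
  have e2 : dS γ (fun y => ‖ζ‖⁻¹ ^ 2 * dS γ (curv γ) y) x =
      ‖ζ‖⁻¹ ^ 2 * dS γ (dS γ (curv γ)) x := by
    show ‖derivWithin γ (Icc 0 1) x‖⁻¹ • derivWithin (fun y => ‖ζ‖⁻¹ ^ 2 * dS γ (curv γ) y)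
      (Icc 0 1) x = ‖ζ‖⁻¹ ^ 2 * (‖derivWithin γ (Icc 0 1) x‖⁻¹ •
        derivWithin (dS γ (curv γ)) (Icc 0 1) x)
    rw [derivWithin_const_mul_field]
    simp only [smul_eq_mul]
    ring
  rw [e2, smul_eq_mul]
  ring

theorem stress_rt {ζ : ℂ} (hζ : ζ ≠ 0) (P : ℂ) (γ : ℝ → ℂ) (μ : ℝ) (x : ℝ) :
    stress (‖ζ‖⁻¹ ^ 2 * μ) (rt ζ P γ) x =
      (‖ζ‖⁻¹ ^ 2) • ((‖ζ‖⁻¹ • ζ) * stress μ γ x) := by
  unfold stress
  rw [curv_rt hζ, dcurv_rt hζ, nu_rt, tau_rt]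
  simp only [Complex.real_smul]
  push_cast
  ring

theorem length_rt (ζ P : ℂ) (γ : ℝ → ℂ) : length (rt ζ P γ) = ‖ζ‖ * length γ := by
  unfold length
  rw [← intervalIntegral.integral_const_mul]
  congr 1
  funext x
  exact norm_rt ζ P γ x

/-- similarities act on the solutions of the elastic flow -/
theorem scale_flow {N M : ℕ} {G : NetType N M} {μ : Fin N → ℝ} {T : ℝ}
    {γ : Fin N → ℝ → ℝ → ℂ} (D : IsElasticFlow G μ T γ) {ζ : ℂ} (hζ : ζ ≠ 0) (P : ℂ) :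
    IsElasticFlow G (fun i => ‖ζ‖⁻¹ ^ 2 * μ i) (‖ζ‖ ^ 4 * T)
      (fun i t => rt ζ P (γ i (‖ζ‖⁻¹ ^ 4 * t))) := by
  have hp : 0 < ‖ζ‖ := norm_pos_iff.2 hζ
  have hmap : ∀ t ∈ Ico 0 (‖ζ‖ ^ 4 * T), ‖ζ‖⁻¹ ^ 4 * t ∈ Ico 0 T := by
    intro t ht
    refine ⟨mul_nonneg (by positivity) ht.1, ?_⟩
    have h1 : ‖ζ‖⁻¹ ^ 4 * t < ‖ζ‖⁻¹ ^ 4 * (‖ζ‖ ^ 4 * T) :=
      mul_lt_mul_of_pos_left ht.2 (by positivity)
    have h2 : ‖ζ‖⁻¹ ^ 4 * (‖ζ‖ ^ 4 * T) = T := by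
      field_simp
    rwa [h2] at h1
  exact {
    order_junction := D.order_junction
    order_navier := D.order_navier
    smooth := by
      intro i
      have h1 : ContDiffOn ℝ ∞ (fun p : ℝ × ℝ => γ i (‖ζ‖⁻¹ ^ 4 * p.1) p.2)
          (Ico 0 (‖ζ‖ ^ 4 * T) ×ˢ Icc 0 1) := by
        have h2 : ContDiffOn ℝ ∞ (fun p : ℝ × ℝ => (‖ζ‖⁻¹ ^ 4 * p.1, p.2))
            (Ico 0 (‖ζ‖ ^ 4 * T) ×ˢ Icc 0 1) := by fun_prop
        exact (D.smooth i).comp h2 fun p hp => ⟨hmap _ hp.1, hp.2⟩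
      exact contDiffOn_const.mul (h1.sub contDiffOn_const)
    regular := by
      intro i t ht x hx
      rw [derivWithin_rt]
      exact mul_ne_zero hζ (D.regular i _ (hmap t ht) x hx)
    connected := by
      intro t ht
      have e : (⋃ i, rt ζ P (γ i (‖ζ‖⁻¹ ^ 4 * t)) '' Icc 0 1) =
          (fun z : ℂ => ζ * (z - P)) '' (⋃ i, γ i (‖ζ‖⁻¹ ^ 4 * t) '' Icc 0 1) := by
        rw [image_iUnion]
        congr 1
        funext i
        rw [image_image]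
        rfl
      rw [e]
      refine (D.connected _ (hmap t ht)).image _ (Continuous.continuousOn ?_)
      fun_prop
    concurrent := by
      intro t ht i j b d h
      unfold rt
      rw [D.concurrent _ (hmap t ht) i j b d h]
    flow := by
      intro i t ht x hx
      have hd0 : ContDiffOn ℝ ∞ (fun r : ℝ => γ i r x) (Ico 0 T) := by
        have := (D.smooth i).comp (s := Ico 0 T) (f := fun r : ℝ => (r, x))
          (by fun_prop) (fun r hr => ⟨hr, hx⟩)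
        exact this
      have hd1 : DifferentiableWithinAt ℝ (fun r : ℝ => γ i r x) (Ico 0 T) (‖ζ‖⁻¹ ^ 4 * t) :=
        (hd0.differentiableOn (by simp)) _ (hmap t ht)
      have hd2 : HasDerivWithinAt (fun r : ℝ => ‖ζ‖⁻¹ ^ 4 * r) (‖ζ‖⁻¹ ^ 4)
          (Ico 0 (‖ζ‖ ^ 4 * T)) t := by
        have := ((hasDerivAt_id t).const_mul (‖ζ‖⁻¹ ^ 4)).hasDerivWithinAt
          (s := Ico 0 (‖ζ‖ ^ 4 * T))
        simpa using this
      have hd3 := HasDerivWithinAt.scomp t hd1.hasDerivWithinAt hd2 (fun r hr => hmap r hr)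
      have hd4 : derivWithin (fun r : ℝ => γ i (‖ζ‖⁻¹ ^ 4 * r) x) (Ico 0 (‖ζ‖ ^ 4 * T)) t =
          (‖ζ‖⁻¹ ^ 4) • derivWithin (fun r : ℝ => γ i r x) (Ico 0 T) (‖ζ‖⁻¹ ^ 4 * t) :=
        hd3.derivWithin (uniqueDiffOn_Ico _ _ t ht)
      have e : (fun r => rt ζ P (γ i (‖ζ‖⁻¹ ^ 4 * r)) x) =
          rt ζ P (fun r => γ i (‖ζ‖⁻¹ ^ 4 * r) x) := rfl
      rw [e, derivWithin_rt, hd4, ddcurv_rt hζ, curv_rt hζ, nu_rt]
      have h1 := D.flow i _ (hmap t ht) x hx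
      have h2 : ζ * (‖ζ‖⁻¹ ^ 4 • derivWithin (fun r : ℝ => γ i r x) (Ico 0 T) (‖ζ‖⁻¹ ^ 4 * t)) =
          (‖ζ‖⁻¹ ^ 3) • ((‖ζ‖⁻¹ • ζ) *
            derivWithin (fun r : ℝ => γ i r x) (Ico 0 T) (‖ζ‖⁻¹ ^ 4 * t)) := by
        simp only [Complex.real_smul]
        push_cast
        ring
      rw [h2, dot_smul, dot_unit hζ, h1]
      ring
    natural_curv := by
      intro t ht i b h
      rw [curv_rt hζ, D.natural_curv _ (hmap t ht) i b h, mul_zero]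
    natural_force := by
      intro t ht v hv
      have h := D.natural_force _ (hmap t ht) v hv
      have h2 : ∀ e : Fin N × Fin 2, (if G.vert e.1 e.2 = v then
          (2 * ((e.2 : ℕ) : ℝ) - 1) • stress (‖ζ‖⁻¹ ^ 2 * μ e.1)
            (rt ζ P (γ e.1 (‖ζ‖⁻¹ ^ 4 * t))) (e.2 : ℕ) else 0) =
          (((‖ζ‖⁻¹ ^ 2 : ℝ) : ℂ) * (‖ζ‖⁻¹ • ζ)) * (if G.vert e.1 e.2 = v then
          (2 * ((e.2 : ℕ) : ℝ) - 1) • stress (μ e.1) (γ e.1 (‖ζ‖⁻¹ ^ 4 * t)) (e.2 : ℕ)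
            else 0) := by
        intro e
        split_ifs
        · rw [stress_rt hζ]
          simp only [Complex.real_smul]
          ring
        · rw [mul_zero]
      rw [Finset.sum_congr rfl fun e _ => h2 e, ← Finset.mul_sum, h, mul_zero]
    nondegenerate := by
      intro t ht v hv
      obtain ⟨i, j, b, d, h1, h2, h3⟩ := D.nondegenerate _ (hmap t ht) v hv
      refine ⟨i, j, b, d, h1, h2, ?_⟩
      rw [tau_rt, nu_rt, dot_unit hζ]
      exact h3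
    fixed := by
      intro t ht i b h
      have h1 := D.fixed _ (hmap t ht) i b h
      unfold rt
      rw [h1, mul_zero]
    clamped := by
      intro t ht i b h
      have h1 := D.clamped _ (hmap t ht) i b h
      rw [tau_rt, tau_rt]
      simp only
      rw [h1, mul_zero] }

/-- a solution on a shorter interval of time -/
theorem restrict_flow {N M : ℕ} {G : NetType N M} {μ : Fin N → ℝ} {T T' : ℝ}
    {γ : Fin N → ℝ → ℝ → ℂ} (D : IsElasticFlow G μ T γ) (hT : T' ≤ T) :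
    IsElasticFlow G μ T' γ := by
  have hmap : ∀ t ∈ Ico 0 T', t ∈ Ico 0 T := fun t ht => ⟨ht.1, ht.2.trans_le hT⟩
  have hflow : ∀ i, ∀ t ∈ Ico 0 T', ∀ x ∈ Icc (0 : ℝ) 1,
    dot (derivWithin (fun r => γ i r x) (Ico 0 T') t) (nu (γ i t) x) =
      - 2 * dS (γ i t) (dS (γ i t) (curv (γ i t))) x - curv (γ i t) x ^ 3 +
        μ i * curv (γ i t) x := by
    intro i t ht x hx
    have hd0 : ContDiffOn ℝ ∞ (fun r : ℝ => γ i r x) (Ico 0 T) := by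
      have := (D.smooth i).comp (s := Ico 0 T) (f := fun r : ℝ => (r, x))
        (by fun_prop) (fun r hr => ⟨hr, hx⟩)
      exact this
    have hd1 : DifferentiableWithinAt ℝ (fun r : ℝ => γ i r x) (Ico 0 T) t :=
      (hd0.differentiableOn (by simp)) _ (hmap t ht)
    have hd2 := (hd1.hasDerivWithinAt.mono (t := Ico 0 T) (s := Ico 0 T')
      (fun r hr => hmap r hr)).derivWithin (uniqueDiffOn_Ico _ _ t ht)
    rw [hd2]
    exact D.flow i t (hmap t ht) x hx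
  exact {
    order_junction := D.order_junction
    order_navier := D.order_navier
    smooth := by
      intro i
      exact (D.smooth i).mono fun p hp => ⟨hmap _ hp.1, hp.2⟩
    regular := by
      intro i t ht x hx
      exact D.regular i t (hmap t ht) x hx
    connected := by
      intro t ht
      exact D.connected t (hmap t ht)
    concurrent := by
      intro t ht i j b d h
      exact D.concurrent t (hmap t ht) i j b d h
    flow := hflow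
    natural_curv := by
      intro t ht i b h
      exact D.natural_curv t (hmap t ht) i b h
    natural_force := by
      intro t ht v hv
      exact D.natural_force t (hmap t ht) v hv
    nondegenerate := by
      intro t ht v hv
      exact D.nondegenerate t (hmap t ht) v hv
    fixed := by
      intro t ht i b h
      exact D.fixed t (hmap t ht) i b h
    clamped := by
      intro t ht i b h
      exact D.clamped t (hmap t ht) i b h }

end Pool.Agent.Y357.EN
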