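import Mathlib
import Pool.Agent.W785.EN.All
import Pool.Agent.Y357.EN.Rot

/-!
# Star-shaped networks: `n` arms, each a segment with a drop at its end
-/

set_option autoImplicit false

open Set Filter Topology
open scoped ContDiff

namespace Pool.Agent.Y357.EN

open Pool.Agent.W785.EN

/-- The star with `n` arms: curve `(j, 0)` is the loop of the arm `j`, both ends of it are at the
vertex `j`; curve `(j, 1)` is the segment of the arm `j`, from the vertex `j` to the centre. The
centre is the last vertex, it is of kind `κ`; the other vertices are junctions. -/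
def star (n : ℕ) (κ : Kind) : NetType (n * 2) (n + 1) where
  vert := fun i b => if (finProdFinEquiv.symm i).2 = 1 ∧ b = 1 then Fin.last n
    else (finProdFinEquiv.symm i).1.castSucc
  kind := fun v => if v = Fin.last n then κ else Kind.junction

/-- the curves of the star -/
noncomputable def starCurve (n : ℕ) (γ : Fin n → Fin 2 → ℝ → ℝ → ℂ) (i : Fin (n * 2)) (t : ℝ) :
    ℝ → ℂ :=
  γ (finProdFinEquiv.symm i).1 (finProdFinEquiv.symm i).2 t

theorem vert_last {n : ℕ} {κ : Kind} {i : Fin (n * 2)} {b : Fin 2} :
    (star n κ).vert i b = Fin.last n ↔ (finProdFinEquiv.symm i).2 = 1 ∧ b = 1 := by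
  unfold star
  constructor
  · intro h
    by_contra hc
    simp only [hc, if_false] at h
    exact absurd h (Fin.castSucc_lt_last _).ne
  · intro h
    simp only [h, and_self, if_true]

theorem vert_cast {n : ℕ} {κ : Kind} {i : Fin (n * 2)} {b : Fin 2} {j : Fin n} :
    (star n κ).vert i b = j.castSucc ↔
      (finProdFinEquiv.symm i).1 = j ∧ ¬ ((finProdFinEquiv.symm i).2 = 1 ∧ b = 1) := by
  unfold star
  constructor
  · intro h
    by_cases hc : (finProdFinEquiv.symm i).2 = 1 ∧ b = 1
    · simp only [hc, and_self, if_true] at h
      exact absurd h.symm (Fin.castSucc_lt_last _).ne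
    · simp only [hc, if_false] at h
      exact ⟨Fin.castSucc_injective _ h, hc⟩
  · rintro ⟨h1, h2⟩
    simp only [h2, if_false, h1]

theorem lolly_vert {i b : Fin 2} (h : ¬ (i = 1 ∧ b = 1)) : lolly.vert i b = 0 := by
  unfold lolly
  simp only [h, if_false]

theorem lolly_kind (i b : Fin 2) : lolly.kind (lolly.vert i b) ≠ Kind.clamped := by
  unfold lolly
  fin_cases i <;> fin_cases b <;> simp

theorem dot_self_I (u : ℂ) : dot u (Complex.I * u) = 0 := by
  unfold dot
  simp only [Complex.mul_re, Complex.mul_im, Complex.I_re, Complex.I_im]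
  ring

/-- the star is a solution of the elastic flow -/
theorem star_flow {n : ℕ} (hn : 1 ≤ n) {κ : Kind} {μ : Fin n → Fin 2 → ℝ} {T : ℝ}
    {γ : Fin n → Fin 2 → ℝ → ℝ → ℂ} {u : Fin n → ℂ} (hT : 0 < T)
    (D : ∀ j, IsElasticFlow lolly (μ j) T (γ j))
    (htop : ∀ j, ∀ t ∈ Ico 0 T, γ j 1 t 1 = 0)
    (htau : ∀ j, ∀ t ∈ Ico 0 T, tau (γ j 1 t) 1 = u j)
    (hst : ∀ j, ∀ t ∈ Ico 0 T, stress (μ j 1) (γ j 1 t) 1 = -(μ j 1 • u j))
    (hj : κ = Kind.junction → ∑ j, μ j 1 • u j = 0 ∧ ∃ i j, dot (u i) (Complex.I * u j) ≠ 0)
    (hnav : κ = Kind.navier → n = 1) :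
    IsElasticFlow (star n κ)
      (fun i => μ (finProdFinEquiv.symm i).1 (finProdFinEquiv.symm i).2) T (starCurve n γ) := by
  have v0 : ((0 : Fin 2) : ℕ) = 0 := rfl
  have v1 : ((1 : Fin 2) : ℕ) = 1 := rfl
  have hcen : ∀ t ∈ Ico 0 T, ∀ i b, (star n κ).vert i b = Fin.last n →
      starCurve n γ i t (b : ℕ) = 0 := by
    intro t ht i b h
    obtain ⟨h1, h2⟩ := vert_last.1 h
    unfold starCurve
    rw [h1, h2, v1, Nat.cast_one, htop _ t ht]
  exact {
    order_junction := by
      intro v hv
      unfold NetType.order
      rcases Fin.eq_castSucc_or_eq_last v with ⟨j, rfl⟩ | rfl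
      · apply Finset.one_lt_card.2
        refine ⟨(finProdFinEquiv (j, 0), 0), ?_, (finProdFinEquiv (j, 0), 1), ?_, ?_⟩
        · rw [Finset.mem_filter]
          refine ⟨Finset.mem_univ _, vert_cast.2 ?_⟩
          simp
        · rw [Finset.mem_filter]
          refine ⟨Finset.mem_univ _, vert_cast.2 ?_⟩
          simp
        · intro h
          have := congrArg Prod.snd h
          simp at this
      · obtain ⟨-, i, j, hij⟩ := hj (by simpa [star] using hv)
        have hne : i ≠ j := by
          rintro rfl
          exact hij (dot_self_I _)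
        apply Finset.one_lt_card.2
        refine ⟨(finProdFinEquiv (i, 1), 1), ?_, (finProdFinEquiv (j, 1), 1), ?_, ?_⟩
        · rw [Finset.mem_filter]
          refine ⟨Finset.mem_univ _, vert_last.2 ?_⟩
          simp
        · rw [Finset.mem_filter]
          refine ⟨Finset.mem_univ _, vert_last.2 ?_⟩
          simp
        · intro h
          have h1 := congrArg Prod.fst h
          have h2 := finProdFinEquiv.injective h1
          exact hne (congrArg Prod.fst h2)
    order_navier := by
      intro v hv
      rcases Fin.eq_castSucc_or_eq_last v with ⟨j, rfl⟩ | rfl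
      · have : (star n κ).kind j.castSucc = Kind.junction := by
          unfold star
          simp only
          rw [if_neg (Fin.castSucc_lt_last j).ne]
        rw [this] at hv
        cases hv
      · have hn1 : n = 1 := hnav (by simpa [star] using hv)
        subst hn1
        unfold NetType.order
        rw [Finset.card_eq_one]
        refine ⟨(finProdFinEquiv (0, 1), 1), ?_⟩
        ext e
        rw [Finset.mem_filter, Finset.mem_singleton]
        constructor
        · rintro ⟨-, h⟩
          obtain ⟨h1, h2⟩ := vert_last.1 h
          apply Prod.ext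
          · apply finProdFinEquiv.symm.injective
            rw [Equiv.symm_apply_apply]
            exact Prod.ext (Subsingleton.elim _ _) h1
          · exact h2
        · rintro rfl
          refine ⟨Finset.mem_univ _, vert_last.2 ?_⟩
          simp
    smooth := by
      intro i
      exact (D _).smooth _
    regular := by
      intro i t ht x hx
      exact (D _).regular _ t ht x hx
    connected := by
      intro t ht
      have e : (⋃ i, starCurve n γ i t '' Icc 0 1) =
          ⋃ j : Fin n, (⋃ i, γ j i t '' Icc 0 1) := by
        ext z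
        simp only [mem_iUnion, mem_image]
        constructor
        · rintro ⟨i, x, hx, rfl⟩
          exact ⟨(finProdFinEquiv.symm i).1, (finProdFinEquiv.symm i).2, x, hx, rfl⟩
        · rintro ⟨j, i, x, hx, rfl⟩
          refine ⟨finProdFinEquiv (j, i), x, hx, ?_⟩
          unfold starCurve
          rw [Equiv.symm_apply_apply]
      rw [e]
      have h0 : ∀ j : Fin n, (0 : ℂ) ∈ ⋃ i, γ j i t '' Icc 0 1 := by
        intro j
        rw [mem_iUnion]
        exact ⟨1, 1, ⟨zero_le_one, le_rfl⟩, htop j t ht⟩
      refine ⟨⟨0, ?_⟩, ?_⟩
      · rw [mem_iUnion]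
        exact ⟨⟨0, hn⟩, h0 _⟩
      · exact isPreconnected_iUnion ⟨0, mem_iInter.2 h0⟩ fun j => ((D j).connected t ht).isPreconnected
    concurrent := by
      intro t ht i j b d h
      rcases Fin.eq_castSucc_or_eq_last ((star n κ).vert i b) with ⟨v, hv⟩ | hv
      · have hv' : (star n κ).vert j d = v.castSucc := by rw [← h, hv]
        obtain ⟨h1, h2⟩ := vert_cast.1 hv
        obtain ⟨h3, h4⟩ := vert_cast.1 hv'
        unfold starCurve
        rw [h1, h3, (D v).concurrent t ht _ _ b d (by rw [lolly_vert h2, lolly_vert h4])]
      · rw [hcen t ht i b hv, hcen t ht j d (by rw [← h, hv])]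
    flow := by
      intro i t ht x hx
      exact (D _).flow _ t ht x hx
    natural_curv := by
      intro t ht i b _
      exact (D _).natural_curv t ht _ b (lolly_kind _ _)
    natural_force := by
      intro t ht v hv
      have e0 : ∀ F : Fin (n * 2) × Fin 2 → ℂ, ∑ e, F e =
          ∑ j : Fin n, ∑ k : Fin 2, ∑ b : Fin 2, F (finProdFinEquiv (j, k), b) := by
        intro F
        rw [Fintype.sum_prod_type, ← finProdFinEquiv.sum_comp, Fintype.sum_prod_type]
      rw [e0]
      simp only [starCurve, Equiv.symm_apply_apply]
      rcases Fin.eq_castSucc_or_eq_last v with ⟨v, rfl⟩ | rfl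
      · have h1 := (D v).natural_force t ht 0 (by simp [lolly])
        rw [Fintype.sum_prod_type] at h1
        rw [Finset.sum_eq_single v]
        · have h2 : ∀ k b : Fin 2, (if (star n κ).vert (finProdFinEquiv (v, k)) b = v.castSucc then
              (2 * ((b : ℕ) : ℝ) - 1) • stress (μ v k) (γ v k t) (b : ℕ)
              else 0) = (if lolly.vert k b = 0 then
                (2 * ((b : ℕ) : ℝ) - 1) • stress (μ v k) (γ v k t) (b : ℕ) else 0) := by
            intro k b
            by_cases hkb : k = 1 ∧ b = 1
            · have h3 : ¬ (star n κ).vert (finProdFinEquiv (v, k)) b = v.castSucc := by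
                rw [vert_cast]
                simp [hkb]
              have h4 : ¬ lolly.vert k b = 0 := by
                unfold lolly
                simp [hkb]
              rw [if_neg h3, if_neg h4]
            · have h3 : (star n κ).vert (finProdFinEquiv (v, k)) b = v.castSucc := by
                rw [vert_cast]
                simpa using hkb
              rw [if_pos h3, if_pos (lolly_vert hkb)]
          simp only [h2]
          exact h1
        · intro j _ hjv
          refine Finset.sum_eq_zero fun k _ => Finset.sum_eq_zero fun b _ => ?_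
          rw [if_neg]
          rw [vert_cast]
          simp [hjv]
        · intro h
          exact absurd (Finset.mem_univ _) h
      · obtain ⟨hsum, -⟩ := hj (by simpa [star] using hv)
        have h2 : ∀ j : Fin n, (∑ k : Fin 2, ∑ b : Fin 2,
            (if (star n κ).vert (finProdFinEquiv (j, k)) b = Fin.last n then
              (2 * ((b : ℕ) : ℝ) - 1) • stress (μ j k) (γ j k t) (b : ℕ)
              else 0)) = -(μ j 1 • u j) := by
          intro j
          simp only [vert_last, Equiv.symm_apply_apply]
          rw [Fin.sum_univ_two, Fin.sum_univ_two, Fin.sum_univ_two]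
          rw [if_neg (by simp), if_neg (by simp), if_neg (by simp), if_pos (by simp)]
          simp only [v1, Nat.cast_one]
          rw [hst j t ht]
          norm_num
        rw [Finset.sum_congr rfl fun j _ => h2 j, Finset.sum_neg_distrib, hsum, neg_zero]
    nondegenerate := by
      intro t ht v hv
      rcases Fin.eq_castSucc_or_eq_last v with ⟨v, rfl⟩ | rfl
      · obtain ⟨i, j, b, d, h1, h2, h3⟩ := (D v).nondegenerate t ht 0 (by simp [lolly])
        have hne : ∀ i b : Fin 2, lolly.vert i b = 0 → ¬ (i = 1 ∧ b = 1) := by
          intro i b h hc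
          unfold lolly at h
          simp [hc] at h
        refine ⟨finProdFinEquiv (v, i), finProdFinEquiv (v, j), b, d, ?_, ?_, ?_⟩
        · rw [vert_cast]
          simpa using hne i b h1
        · rw [vert_cast]
          simpa using hne j d h2
        · unfold starCurve
          simp only [Equiv.symm_apply_apply]
          exact h3
      · obtain ⟨-, i, j, hij⟩ := hj (by simpa [star] using hv)
        refine ⟨finProdFinEquiv (i, 1), finProdFinEquiv (j, 1), 1, 1, ?_, ?_, ?_⟩
        · rw [vert_last]; simp
        · rw [vert_last]; simp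
        · unfold starCurve
          simp only [Equiv.symm_apply_apply]
          unfold nu
          rw [v1, Nat.cast_one, htau i t ht, htau j t ht]
          exact hij
    fixed := by
      intro t ht i b h
      rcases Fin.eq_castSucc_or_eq_last ((star n κ).vert i b) with ⟨v, hv⟩ | hv
      · exfalso
        apply h
        rw [hv]
        unfold star
        simp only
        rw [if_neg (Fin.castSucc_lt_last v).ne]
      · rw [hcen t ht i b hv, hcen 0 ⟨le_rfl, hT⟩ i b hv]
    clamped := by
      intro t ht i b h
      rcases Fin.eq_castSucc_or_eq_last ((star n κ).vert i b) with ⟨v, hv⟩ | hv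
      · exfalso
        rw [hv] at h
        unfold star at h
        simp only at h
        rw [if_neg (Fin.castSucc_lt_last v).ne] at h
        cases h
      · obtain ⟨h1, h2⟩ := vert_last.1 hv
        unfold starCurve
        rw [h1, h2, v1, Nat.cast_one, htau _ t ht, htau _ 0 ⟨le_rfl, hT⟩] }

end Pool.Agent.Y357.EN
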