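import Mathlib
import Pool.Agent.W785.EN.All
import Pool.Agent.Y357.EN.Star

/-!
# Star-shaped networks: the arms, the lengths, the end of the solution
-/

set_option autoImplicit false

open Set Filter Topology
open scoped ContDiff

namespace Pool.Agent.Y357.EN

open Pool.Agent.W785.EN

theorem len_loop {c μ S l T : ℝ} {φ k W Z x y : ℝ → ℝ} (D : Drop c μ S l φ k W Z x y) (t : ℝ) :
    length (dropCurve c T l x y 0 t) = 2 * l := by
  unfold length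
  have h := Pool.Agent.W753.EN.Build.par_loop (T := T) D t
  have : ∫ r in (0 : ℝ)..1, ‖derivWithin (dropCurve c T l x y 0 t) (Icc 0 1) r‖ =
      ∫ r in (0 : ℝ)..1, 2 * l := by
    apply intervalIntegral.integral_congr
    intro r hr
    rw [uIcc_of_le zero_le_one] at hr
    exact h.norm_eq hr
  rw [this]
  simp

theorem tau_seg {c T l : ℝ} {x y : ℝ → ℝ} (hc : 0 < c) {t : ℝ} (ht : t < T) :
    tau (dropCurve c T l x y 1 t) 1 = Complex.I := by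
  have h := (Pool.Agent.W753.EN.Build.par_seg (x := x) (y := y) (l := l) hc ht).tau_eq
    (r := 1) ⟨zero_le_one, le_rfl⟩
  rw [h, Real.cos_pi_div_two, Real.sin_pi_div_two]
  rfl

theorem stress_seg {c T l : ℝ} {x y : ℝ → ℝ} (hc : 0 < c) {t : ℝ} (ht : t < T) (μ : ℝ) :
    stress μ (dropCurve c T l x y 1 t) 1 = -(μ * Complex.I) := by
  have h := (Pool.Agent.W753.EN.Build.par_seg (x := x) (y := y) (l := l) hc ht).stress_eq
    (r := 1) ⟨zero_le_one, le_rfl⟩ μ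
  rw [h, Real.cos_pi_div_two, Real.sin_pi_div_two]
  apply Complex.ext <;> simp

theorem exists_drop : ∃ (c μ S l : ℝ) (φ k W Z x y : ℝ → ℝ), Drop c μ S l φ k W Z x y :=
  drop_of_flow Pool.Agent.W554.EN.main

theorem ofReal_mul_I' (r : ℝ) : (r : ℂ) * Complex.I = ⟨0, r⟩ := by
  apply Complex.ext <;> simp

/-- one arm: its segment points from the centre `0` in the direction of `v`, its weight is `‖v‖`,
its length is `a + c λ⁻³ (T - t)` -/
theorem arm {c μ S l : ℝ} {φ k W Z x y : ℝ → ℝ} (hd : Drop c μ S l φ k W Z x y) {v : ℂ}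
    (hv : v ≠ 0) {a T : ℝ} (ha : 0 ≤ a) (hT : 0 < T) :
    ∃ g : Fin 2 → ℝ → ℝ → ℂ,
      IsElasticFlow lolly (fun i => if i = 1 then ‖v‖ else μ / √(2 * W l) ^ 2 * ‖v‖) T g ∧
      (∀ t x, g 1 t x = ((1 - x) * (a + c / √(2 * W l) ^ 3 * √‖v‖ ^ 3 * (T - t))) •
        (‖v‖⁻¹ • v)) ∧
      (∀ t x, g 0 t x = g 0 0 x - (c / √(2 * W l) ^ 3 * √‖v‖ ^ 3 * t) • (‖v‖⁻¹ • v)) ∧
      (∀ t ∈ Ico 0 T, length (g 1 t) = a + c / √(2 * W l) ^ 3 * √‖v‖ ^ 3 * (T - t)) ∧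
      (∀ t, length (g 0 t) = 2 * l * √(2 * W l) / √‖v‖) ∧
      (∀ t ∈ Ico 0 T, tau (g 1 t) 1 = -(‖v‖⁻¹ • v)) ∧
      (∀ t ∈ Ico 0 T, stress ‖v‖ (g 1 t) 1 = v) := by
  set Q : ℝ := √(2 * W l) with hQ
  have hW := hd.W_l
  have hc := hd.c_pos
  have hQ2 : Q ^ 2 = 2 * W l := Real.sq_sqrt (by linarith)
  have hQ0 : 0 < Q := Real.sqrt_pos.2 (by linarith)
  set r : ℝ := √‖v‖ with hr
  have hv0 : 0 < ‖v‖ := norm_pos_iff.2 hv
  have hr2 : r ^ 2 = ‖v‖ := Real.sq_sqrt hv0.le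
  have hr0 : 0 < r := Real.sqrt_pos.2 hv0
  have hvn : ‖v‖ ≠ 0 := hv0.ne'
  set lam : ℝ := Q / r with hlam
  have hl0 : 0 < lam := div_pos hQ0 hr0
  set ζ : ℂ := (lam * ‖v‖⁻¹ : ℝ) * (Complex.I * v) with hζ
  have hζn : ‖ζ‖ = lam := by
    rw [hζ, norm_mul, norm_mul, Complex.norm_I, one_mul, Complex.norm_real, norm_mul, norm_inv,
      norm_norm, Real.norm_of_nonneg hl0.le, mul_assoc, inv_mul_cancel₀ hvn, mul_one]
  have hζ0 : ζ ≠ 0 := by
    rw [← norm_ne_zero_iff, hζn]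
    exact hl0.ne'
  set T' : ℝ := lam⁻¹ ^ 4 * T + a / (c * lam) with hT'
  have hmap : ∀ t ∈ Ico 0 T, lam⁻¹ ^ 4 * t < T' := by
    intro t ht
    have h1 : lam⁻¹ ^ 4 * t < lam⁻¹ ^ 4 * T := mul_lt_mul_of_pos_left ht.2 (by positivity)
    have h2 : 0 ≤ a / (c * lam) := by positivity
    linarith
  have hT'0 : 0 < T' := by
    have h1 : 0 < lam⁻¹ ^ 4 * T := by positivity
    have h2 : 0 ≤ a / (c * lam) := by positivity
    linarith
  have h1 := Pool.Agent.W753.EN.Build.main.1 Pool.Agent.W646.EN.main smooth c μ S l φ k W Z x y hd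
    T' hT'0
  have h2 := scale_flow h1 hζ0 ⟨0, y l + c * T'⟩
  rw [hζn] at h2
  have hTT : T ≤ lam ^ 4 * T' := by
    have e : lam ^ 4 * T' = T + lam ^ 3 * a / c := by
      rw [hT']
      field_simp
    rw [e]
    have : 0 ≤ lam ^ 3 * a / c := by positivity
    linarith
  have h3 := restrict_flow h2 hTT
  have hK : c * lam⁻¹ ^ 3 = c / Q ^ 3 * r ^ 3 := by
    rw [hlam]
    field_simp
  have hlen : ∀ t, lam * (c * (T' - lam⁻¹ ^ 4 * t)) = a + c / Q ^ 3 * r ^ 3 * (T - t) := by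
    intro t
    rw [← hK, hT']
    field_simp
    ring
  have hI : Complex.I * Complex.I = -1 := Complex.I_mul_I
  have hunit : (lam⁻¹ • ζ : ℂ) * Complex.I = -(‖v‖⁻¹ • v) := by
    rw [hζ, Complex.real_smul, Complex.real_smul]
    have h4 : (lam : ℂ) ≠ 0 := by exact_mod_cast hl0.ne'
    have h5 : (lam : ℂ)⁻¹ * lam = 1 := inv_mul_cancel₀ h4
    push_cast
    linear_combination ((‖v‖ : ℂ)⁻¹ * v * Complex.I * Complex.I) * h5 + ((‖v‖ : ℂ)⁻¹ * v) * hI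
  refine ⟨fun i t => rt ζ ⟨0, y l + c * T'⟩ (dropCurve c T' l x y i (lam⁻¹ ^ 4 * t)), ?_, ?_, ?_,
    ?_, ?_, ?_, ?_⟩
  · have e : (fun i : Fin 2 => if i = 1 then ‖v‖ else μ / Q ^ 2 * ‖v‖) =
        fun i => lam⁻¹ ^ 2 * (if i = 0 then μ else 2 * W l) := by
      funext i
      rcases (by fin_cases i <;> simp : i = 0 ∨ i = 1) with rfl | rfl
      · rw [if_neg (by decide), if_pos rfl, hlam, ← hr2]
        field_simp
      · rw [if_pos rfl, if_neg (by decide), hlam, ← hr2, ← hQ2]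
        field_simp
    rw [e]
    exact h3
  · intro t s
    rw [← hlen t]
    show ζ * (dropCurve c T' l x y 1 (lam⁻¹ ^ 4 * t) s - ⟨0, y l + c * T'⟩) = _
    have e : dropCurve c T' l x y 1 (lam⁻¹ ^ 4 * t) s - ⟨0, y l + c * T'⟩ =
        ((-((1 - s) * (c * (T' - lam⁻¹ ^ 4 * t))) : ℝ) : ℂ) * Complex.I := by
      unfold dropCurve
      rw [if_neg (by decide), hd.x_l, ofReal_mul_I']
      apply Complex.ext
      · rw [Complex.sub_re]
        simp only [sub_self]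
      · rw [Complex.sub_im]
        simp only
        ring
    rw [e, hζ, Complex.real_smul, Complex.real_smul]
    push_cast
    linear_combination (-((1 - (s : ℂ)) * (c * (T' - (lam : ℂ)⁻¹ ^ 4 * t))) * lam * (‖v‖ : ℂ)⁻¹ * v)
      * hI
  · intro t s
    show ζ * (dropCurve c T' l x y 0 (lam⁻¹ ^ 4 * t) s - ⟨0, y l + c * T'⟩) =
      ζ * (dropCurve c T' l x y 0 (lam⁻¹ ^ 4 * 0) s - ⟨0, y l + c * T'⟩) - _
    have e : dropCurve c T' l x y 0 (lam⁻¹ ^ 4 * t) s =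
        dropCurve c T' l x y 0 (lam⁻¹ ^ 4 * 0) s +
          ((c * (lam⁻¹ ^ 4 * t) : ℝ) : ℂ) * Complex.I := by
      unfold dropCurve
      rw [if_pos rfl, if_pos rfl, ofReal_mul_I']
      apply Complex.ext
      · rw [Complex.add_re]
        simp only [add_zero]
      · rw [Complex.add_im]
        simp only
        ring
    rw [e, ← hK, hζ, Complex.real_smul, Complex.real_smul]
    have h4 : (lam : ℂ) ≠ 0 := by exact_mod_cast hl0.ne'
    have h5 : (lam : ℂ)⁻¹ * lam = 1 := inv_mul_cancel₀ h4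
    push_cast
    linear_combination ((c : ℂ) * (lam : ℂ)⁻¹ ^ 3 * t * (‖v‖ : ℂ)⁻¹ * v * Complex.I * Complex.I) * h5
      + ((c : ℂ) * (lam : ℂ)⁻¹ ^ 3 * t * (‖v‖ : ℂ)⁻¹ * v) * hI
  · intro t ht
    show length (rt ζ _ (dropCurve c T' l x y 1 (lam⁻¹ ^ 4 * t))) = _
    rw [length_rt, hζn, Pool.Agent.W753.EN.Build.main.2 c T' l x y hc _ (hmap t ht), hlen]
  · intro t
    show length (rt ζ _ (dropCurve c T' l x y 0 (lam⁻¹ ^ 4 * t))) = _
    rw [length_rt, hζn, len_loop hd, hlam]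
    field_simp
  · intro t ht
    show tau (rt ζ _ (dropCurve c T' l x y 1 (lam⁻¹ ^ 4 * t))) 1 = _
    rw [tau_rt, hζn]
    simp only
    rw [tau_seg hc (hmap t ht), hunit]
  · intro t ht
    show stress ‖v‖ (rt ζ _ (dropCurve c T' l x y 1 (lam⁻¹ ^ 4 * t))) 1 = _
    have e : ‖v‖ = ‖ζ‖⁻¹ ^ 2 * Q ^ 2 := by
      rw [hζn, hlam, ← hr2]
      field_simp
    have h5 : stress (‖ζ‖⁻¹ ^ 2 * Q ^ 2) (rt ζ ⟨0, y l + c * T'⟩
        (dropCurve c T' l x y 1 (lam⁻¹ ^ 4 * t))) 1 = v := by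
      rw [stress_rt hζ0, stress_seg hc (hmap t ht)]
      have h6 : (‖ζ‖⁻¹ • ζ) * -(((Q ^ 2 : ℝ) : ℂ) * Complex.I) =
          ((Q ^ 2 : ℝ) : ℂ) * (‖v‖⁻¹ • v) := by
        have h7 := hunit
        rw [← hζn] at h7
        linear_combination (-((Q ^ 2 : ℝ) : ℂ)) * h7
      rw [h6, Complex.real_smul, Complex.real_smul]
      have h8 : ((‖ζ‖⁻¹ ^ 2 : ℝ) : ℂ) * (((Q ^ 2 : ℝ) : ℂ) * (((‖v‖⁻¹ : ℝ) : ℂ) * v)) =
          ((‖ζ‖⁻¹ ^ 2 * Q ^ 2 * ‖v‖⁻¹ : ℝ) : ℂ) * v := by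
        push_cast
        ring
      rw [h8, ← e, mul_inv_cancel₀ hvn]
      simp
    rw [← e] at h5
    exact h5

end Pool.Agent.Y357.EN
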